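import Mathlib

set_option autoImplicit false
open Set Function Topology Filter TopologicalSpace

namespace Pool.Agent.H.MP_d4b900

abbrev pt (X : Type) [TopologicalSpace X] : TopologicalSpace C(X, ℝ) :=
  TopologicalSpace.induced (fun f : C(X, ℝ) => (f : X → ℝ)) inferInstance

lemma ev {X : Type} [TopologicalSpace X] (x : X) : Continuous[pt X, _] fun f : C(X, ℝ) => f x :=
  @Continuous.comp _ _ _ (pt X) _ _ _ _ (continuous_apply x) continuous_induced_dom

section gen
variable {K L ι : Type} [TopologicalSpace K] [TopologicalSpace L] (Φ : ι → Filter L)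

abbrev G : Type := {g : C(L, ℝ) // ∀ i, Tendsto g (Φ i) (𝓝 0)}

def q (z : L) : G Φ → ℝ := fun g => g.1 z

lemma qc : Continuous (q Φ) := continuous_pi fun g => g.1.continuous

lemma qt (i : ι) : Tendsto (q Φ) (Φ i) (𝓝 0) := tendsto_pi_nhds.2 fun g => g.2 i

structure M (K : Type) [TopologicalSpace K] where
  m : L → C(K, ℝ) →ₗ[ℝ] ℝ
  c : ∀ h, Continuous (m · h)
  p : ∀ z, Continuous[pt K, _] (m z)
  t : ∀ i, ∃ p, ∀ h, Tendsto (m · h) (Φ i) (𝓝 (h p))

variable {Φ}

abbrev XX (r : M Φ K) : Type := {x : (C(K, ℝ) → ℝ) × (G Φ → ℝ) //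
  (∃ k, x = (fun h => h k, 0)) ∨ ∃ z, x = (fun h => r.m z h, q Φ z)}

def i0 (r : M Φ K) : C(K, XX r) := ⟨fun k => ⟨(fun h => h k, 0), Or.inl ⟨k, rfl⟩⟩,
  ((continuous_pi fun h => h.continuous).prodMk continuous_const).subtype_mk _⟩
def i1 (r : M Φ K) : C(L, XX r) := ⟨fun z => ⟨(fun h => r.m z h, q Φ z), Or.inr ⟨z, rfl⟩⟩,
  ((continuous_pi r.c).prodMk (qc Φ)).subtype_mk _⟩

lemma cX (r : M Φ K) (p : XX r) : (∃ z, p = i0 r z) ∨ ∃ z, p = i1 r z :=
  p.2.imp (Exists.imp fun _ => Subtype.ext) (Exists.imp fun _ => Subtype.ext)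

def gg (r : M Φ K) (f : C(XX r, ℝ)) : G Φ :=
  ⟨f.comp (i1 r) - ⟨_, r.c (f.comp (i0 r))⟩, fun i => by
    obtain ⟨p, h⟩ := r.t i
    have := ((f.continuous.tendsto (i0 r p)).comp (f := i1 r) (tendsto_subtype_rng.2
      ((tendsto_pi_nhds.2 h).prodMk_nhds (qt Φ i)))).sub (h (f.comp (i0 r)))
    rwa [ContinuousMap.comp_apply, sub_self] at this⟩

def T (r s : M Φ K) (f : C(XX r, ℝ)) : C(XX s, ℝ) :=
  ⟨fun y => y.1.1 (f.comp (i0 r)) + y.1.2 (gg r f), by fun_prop⟩

lemma T0 (r s : M Φ K) (f : C(XX r, ℝ)) (k : K) : T r s f (i0 s k) = f (i0 r k) := add_zero _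

lemma T1 (r s : M Φ K) (f : C(XX r, ℝ)) (z : L) : T r s f (i1 s z) =
    s.m z (f.comp (i0 r)) + (f (i1 r z) - r.m z (f.comp (i0 r))) := rfl

lemma TT (r s : M Φ K) (f : C(XX r, ℝ)) : T s r (T r s f) = f := by
  ext p
  rcases cX r p with ⟨z, rfl⟩ | ⟨z, rfl⟩
  · rw [T0, T0]
  · rw [T1, T1, show (T r s f).comp (i0 s) = f.comp (i0 r) from ContinuousMap.ext (T0 r s f)]
    ring

lemma Tc (r s : M Φ K) : Continuous[pt _, pt _] (T r s) := by
  have e : ∀ u : M Φ K, ∀ z, Continuous[pt _, _] fun f : C(XX r, ℝ) => u.m z (f.comp (i0 r)) :=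
    fun u z => @Continuous.comp _ _ _ (pt _) (pt _) _ _ _ (u.p z) (by
      let := pt (XX r)
      exact continuous_induced_rng.2 (continuous_pi fun y => ev (i0 r y)))
  let := pt (XX r)
  refine continuous_induced_rng.2 (continuous_pi fun p => ?_)
  rcases cX s p with ⟨z, rfl⟩ | ⟨z, rfl⟩
  · exact (ev _).congr fun f => (T0 r s f z).symm
  · exact (e s z).add ((ev _).sub (e r z))

def E (r s : M Φ K) : C(XX r, ℝ) ≃ₗ[ℝ] C(XX s, ℝ) where
  toFun := T r s
  invFun := T s r
  left_inv := TT r s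
  right_inv := TT s r
  map_add' f g := by
    ext p
    rcases cX s p with ⟨z, rfl⟩ | ⟨z, rfl⟩
    · simp [T0]
    · simp [T1]
      ring
  map_smul' a g := by
    ext p
    rcases cX s p with ⟨z, rfl⟩ | ⟨z, rfl⟩
    · simp [T0]
    · simp [T1]
      ring
end gen

lemma diag {P : ℕ → ℕ → Prop} (h : ∀ n, ∀ᶠ k in atTop, P n k) :
    ∃ m : ℕ → ℕ, Tendsto m atTop atTop ∧ ∀ᶠ k in atTop, P (m k) k := by
  classical
  choose N hN using fun n => eventually_atTop.1 (h n)
  exact ⟨fun k => Nat.findGreatest (N · ≤ k) k, tendsto_atTop.2 fun n => eventually_atTop.2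
    ⟨max n (N n), fun k hk => Nat.le_findGreatest (le_of_max_le_left hk) (le_of_max_le_right hk)⟩,
    eventually_atTop.2 ⟨N 0, fun k hk => hN _ _ (Nat.findGreatest_spec (P := (N · ≤ k))
      (Nat.zero_le _) hk)⟩⟩

abbrev Z : Type := {B : ℕ → Finset ℕ // Tendsto (fun k => ((B k).card : ℝ) / (k + 1)) atTop (𝓝 0)}

lemma un {α : Type} (F : Finset α) (A : α → Z) :
    Tendsto (fun k => ((F.biUnion fun j => (A j).1 k).card : ℝ) / (k + 1)) atTop (𝓝 0) := by
  have := tendsto_finsetSum F fun j _ => (A j).2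
  rw [Finset.sum_const_zero] at this
  refine squeeze_zero (fun k => by positivity) (fun k => ?_) this
  rw [← Finset.sum_div]
  gcongr
  exact_mod_cast Finset.card_biUnion_le

lemma pun (A : ℕ → Z) : ∃ B : Z, ∀ j, ∀ᶠ k in atTop, (A j).1 k ⊆ B.1 k := by
  obtain ⟨m, m1, m2⟩ := diag fun n => (un (Finset.range n) A).eventually
    (gt_mem_nhds (Nat.one_div_pos_of_nat (n := n)))
  exact ⟨⟨fun k => (Finset.range (m k)).biUnion fun j => (A j).1 k, squeeze_zero'
    (.of_forall fun k => by positivity) (m2.mono fun k => le_of_lt)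
    (tendsto_one_div_add_atTop_nhds_zero_nat.comp m1)⟩, fun j => (m1.eventually_gt_atTop j).mono
      fun k hk => Finset.subset_biUnion_of_mem (fun j => (A j).1 k) (Finset.mem_range.2 hk)⟩

def one (B : ℕ → Finset ℕ) (h : ∀ k, (B k).card ≤ 1) : Z := ⟨B, squeeze_zero
  (fun k => by positivity) (fun k => by gcongr; exact_mod_cast h k)
  tendsto_one_div_add_atTop_nhds_zero_nat⟩

abbrev C : Type := Z × ℝ

abbrev K : Type := {x : C → Bool // (∃ d : ℕ × ℕ, d.2 ≤ d.1 ∧ ∀ c : C, d.2 ∈ c.1.1 d.1 → x c = true) ∨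
  ∃ A : Z, {c : C | (∀ᶠ k in atTop, A.1 k ⊆ c.1.1 k) ∧ x c = false}.Countable}

lemma ex1 (x : K) : ∃ c, x.1 c = true := by
  classical
  obtain ⟨x, ⟨d, -, h⟩ | ⟨A, h⟩⟩ := x
  · exact ⟨(one (fun _ => {d.2}) (by simp), 0), h _ (by simp [one])⟩
  · by_contra hc
    refine Cardinal.not_countable_real ((h.preimage (Prod.mk_right_injective A)).mono
      fun a _ => ?_)
    exact ⟨by simp, by simpa using not_exists.1 hc _⟩

lemma cc0 (u : ℕ → K) (V : Ultrafilter ℕ) (hV : (V : Filter ℕ) ≤ atTop)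
    (h : (∃ d : ℕ × ℕ, d.2 ≤ d.1 ∧ ∀ c : C, d.2 ∈ c.1.1 d.1 → ∀ᶠ j in V, (u j).1 c = true) ∨
      ∃ A : Z, {c : C | (∀ᶠ k in atTop, A.1 k ⊆ c.1.1 k) ∧ ¬ ∀ᶠ j in V, (u j).1 c = true}.Countable) :
    ∃ x, MapClusterPt x atTop u := by
  have t : Tendsto (fun j => (u j).1) V (𝓝 _) := (V.map fun j => (u j).1).le_nhds_lim
  have e : ∀ c, (∀ᶠ j in V, (u j).1 c = true) → (V.map fun j => (u j).1).lim c = true := fun c h =>
    tendsto_nhds_unique (tendsto_pi_nhds.1 t c) (tendsto_const_nhds.congr' (h.mono fun _ => Eq.symm))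
  exact ⟨⟨_, h.imp (Exists.imp fun d h => ⟨h.1, fun c hc => e c (h.2 c hc)⟩) (Exists.imp fun A h =>
    h.mono fun c hc => And.intro hc.1 fun h => by simpa [hc.2] using e c h)⟩,
    (Tendsto.mapClusterPt (tendsto_subtype_rng.2 t)).mono hV⟩

lemma ccK (u : ℕ → K) : ∃ x, MapClusterPt x atTop u := by
  classical
  rcases frequently_or_distrib.1 (Frequently.of_forall (f := atTop) fun j => (u j).2) with h | h
  all_goals
    obtain ⟨φ, φ1, φ2⟩ := extraction_of_frequently_atTop h
    suffices ∃ x, MapClusterPt x atTop (u ∘ φ) from this.imp fun x => .of_comp φ1.tendsto_atTop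
  · choose d d1 d2 using φ2
    rcases ((hyperfilter ℕ).map d).le_cofinite_or_eq_pure with h | ⟨a, h⟩
    · let ρ := fun j => (d j).1
      have e : ∀ j, ρ (invFun ρ (ρ j)) = ρ j := fun j => invFun_eq ⟨j, rfl⟩
      have t : ∀ n, ∀ᶠ j in hyperfilter ℕ, n < ρ j := fun n => by
        filter_upwards [mem_map.1 (h (finite_Iic (n, n)).compl_mem_cofinite)] with j hj
        exact not_le.1 fun e => hj ⟨e, (d1 j).trans e⟩
      refine cc0 _ ((hyperfilter ℕ).map fun j => invFun ρ (ρ j)) (Nat.cofinite_eq_atTop ▸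
        le_cofinite_iff_eventually_ne.2 fun n => (t (ρ n)).mono fun j hj h => hj.ne
          (h ▸ e j)) (Or.inr ⟨one (fun k => {(d (invFun ρ k)).2}) (by simp),
            countable_empty.mono fun c hc => hc.2 ?_⟩)
      exact ((tendsto_atTop.2 fun n => (t n).mono fun _ => le_of_lt).eventually hc.1).mono
        fun j hj => d2 _ c ((congrArg (_ ∈ c.1.1 ·) (e j)).ge (hj (Finset.mem_singleton_self _)))
    · have h' : ∀ᶠ j in hyperfilter ℕ, d j = a := show {a} ∈ (hyperfilter ℕ).map d from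
        h ▸ Ultrafilter.mem_pure.2 rfl
      obtain ⟨j, rfl⟩ := h'.exists
      exact cc0 _ _ Nat.hyperfilter_le_atTop (Or.inl ⟨_, d1 j, fun c hc => h'.mono fun i hi =>
        d2 i c (hi ▸ hc)⟩)
  · choose A hA using φ2
    obtain ⟨B, hB⟩ := pun A
    refine cc0 _ _ Nat.hyperfilter_le_atTop (Or.inr ⟨B, (countable_iUnion hA).mono fun c hc => ?_⟩)
    obtain ⟨j, hj⟩ := (not_eventually.1 hc.2).exists
    exact mem_iUnion.2 ⟨j, ((hB j).and hc.1).mono fun k h => h.1.trans h.2, by simpa using hj⟩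

lemma bdd (h : C(K, ℝ)) : ∃ M, ∀ x, |h x| ≤ M := by
  by_contra hc
  push Not at hc
  choose u hu using fun n : ℕ => hc n
  obtain ⟨x, hx⟩ := ccK u
  obtain ⟨n, hn⟩ := exists_nat_gt |h x|
  obtain ⟨m, h1, h2⟩ := ((mapClusterPt_iff_frequently.1 hx _ ((isOpen_lt h.continuous.abs
    continuous_const).mem_nhds hn)).and_eventually (eventually_ge_atTop n)).exists
  exact ((hu m).trans h1).not_ge (Nat.cast_le.2 h2)

abbrev L : Type := ℕ × (C → Bool)

def s (z : L) (i : ℕ) : K := ⟨fun c => !z.2 c || decide (min i z.1 ∈ c.1.1 z.1),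
  Or.inl ⟨(z.1, min i z.1), min_le_right _ _, fun c hc => by simp [hc]⟩⟩

lemma sc (i : ℕ) : Continuous (s · i) := continuous_prod_of_discrete_left.2 fun k =>
  (continuous_pi fun c : C => (continuous_of_discreteTopology (f := fun b : Bool =>
    !b || decide (min i k ∈ c.1.1 k))).comp (continuous_apply c)).subtype_mk _

abbrev J : Type := {U : Ultrafilter ℕ // (U : Filter ℕ) ≤ atTop} × (ℕ → Finset C)

open Classical in
noncomputable def w (T : ℕ → Finset C) (k : ℕ) : L := (k, fun c => decide (c ∈ T k))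

noncomputable def Φ (i : J) : Filter L := map (w i.2) i.1.1

noncomputable def av (z : L) : C(K, ℝ) →ₗ[ℝ] ℝ where
  toFun h := (∑ i ∈ Finset.range (z.1 + 1), h (s z i)) / (z.1 + 1)
  map_add' _ _ := by simp [Finset.sum_add_distrib, add_div]
  map_smul' _ _ := by simp [← Finset.mul_sum, mul_div_assoc]

lemma avb (z : L) (h : C(K, ℝ)) (D : Finset ℕ) {a ε M : ℝ} (hε : 0 ≤ ε) (h1 : ∀ x, |h x - a| ≤ M)
    (h2 : ∀ i ≤ z.1, i ∉ D → |h (s z i) - a| ≤ ε) :
    |av z h - a| ≤ ε + M * (D.card / (z.1 + 1)) := by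
  classical
  have p : (0 : ℝ) < z.1 + 1 := by positivity
  have hM : 0 ≤ M := (abs_nonneg _).trans (h1 (s z 0))
  have : av z h - a = (∑ i ∈ Finset.range (z.1 + 1), (h (s z i) - a)) / (z.1 + 1) := by
    simp [av, sub_div, mul_div_cancel_left₀ _ p.ne']
  rw [this, abs_div, abs_of_pos p, div_le_iff₀ p]
  refine (Finset.abs_sum_le_sum_abs _ _).trans ((Finset.sum_le_sum (g := fun i => ε +
    if i ∈ D then M else 0) fun i hi => ?_).trans ?_)
  · split_ifs with e
    · linarith [h1 (s z i)]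
    · simpa using h2 i (Finset.mem_range_succ_iff.1 hi) e
  · rw [Finset.sum_add_distrib, Finset.sum_ite_mem]
    simp only [Finset.sum_const, Finset.card_range, nsmul_eq_mul]
    have : ((Finset.range (z.1 + 1) ∩ D).card : ℝ) ≤ D.card :=
      Nat.cast_le.2 (Finset.card_le_card Finset.inter_subset_right)
    field_simp
    push_cast
    nlinarith

noncomputable def mu : M Φ K where
  m := av
  c h := continuous_prod_of_discrete_left.2 fun k => (continuous_finsetSum (Finset.range (k + 1))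
    fun i _ => h.continuous.comp ((sc i).comp (Continuous.prodMk_right k))).div_const
      ((k : ℝ) + 1)
  p z := by
    let := pt K
    exact (continuous_finsetSum _ fun i _ => ev _).div_const _
  t := fun ⟨⟨U, hU⟩, T⟩ => by
    classical
    let y : K := ⟨fun c => decide (∀ᶠ k in U, c ∉ T k), Or.inr ⟨one (fun _ => ∅) (by simp),
      (countable_iUnion fun k => (T k).countable_toSet).mono fun c hc => by
        by_contra h
        simp only [mem_iUnion, not_exists, Finset.mem_coe] at h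
        simpa [h] using hc.2⟩⟩
    refine ⟨y, fun h => Metric.tendsto_nhds.2 fun ε hε => eventually_map.2 ?_⟩
    obtain ⟨M, hM⟩ := bdd (h - .const _ (h y))
    obtain ⟨O, o1, o2⟩ := (mem_nhds_subtype _ _ _).1 (h.continuous.continuousAt.preimage_mem_nhds
      (Metric.ball_mem_nhds (h y) (half_pos hε)))
    rw [nhds_pi, Filter.mem_pi] at o1
    obtain ⟨F, f1, t, f2, f3⟩ := o1
    have e : ∀ᶠ k in U, ∀ c ∈ F, y.1 c = !decide (c ∈ T k) := (eventually_all_finite f1).2
      fun c _ => by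
        by_cases e : ∀ᶠ k in U, c ∉ T k
        · exact e.mono fun k hk => (decide_eq_true e).trans (by simp [hk])
        · exact (Ultrafilter.eventually_not.2 e).mono fun k hk => (decide_eq_false e).trans
            (by simpa using hk)
    have := (((un f1.toFinset Prod.fst).const_mul M).mono_left hU).eventually
      (gt_mem_nhds (a := ε / 2) (by simpa))
    filter_upwards [e, this] with k e1 e2
    refine (avb (w T k) h (f1.toFinset.biUnion fun c => c.1.1 k) (half_pos hε).le hM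
      fun i hi hD => le_of_lt (o2 (f3 fun c hc => ?_))).trans_lt
        ((add_lt_add_right e2 _).trans_eq (add_halves ε))
    have : i ∉ c.1.1 k := fun h => hD (Finset.mem_biUnion.2 ⟨c, f1.mem_toFinset.2 hc, h⟩)
    rw [show (s (w T k) i).1 c = y.1 c by
      simp [s, w, e1 c hc, min_eq_left (show i ≤ k from hi), this]]
    exact mem_of_mem_nhds (f2 c)

noncomputable def nu (y : K) : M Φ K where
  m _ := (ContinuousMap.evalCLM ℝ y).toLinearMap
  c _ := continuous_const
  p _ := ev y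
  t _ := ⟨y, fun _ => tendsto_const_nhds⟩

lemma far (g : G Φ) {ε : ℝ} (hε : 0 < ε) : ∀ᶠ k in atTop, ∀ x, |g.1 (k, x)| ≤ ε := by
  classical
  by_contra hc
  have : ∀ k, ∃ T : Finset C, (∃ x, ε < |g.1 (k, x)|) → ε < |g.1 (k, fun c => decide (c ∈ T))| := by
    intro k
    by_cases h : ∃ x, ε < |g.1 (k, x)|
    · obtain ⟨x, hx⟩ := h
      have o := (isOpen_lt continuous_const (g.1.continuous.comp
        (Continuous.prodMk_right k)).abs).mem_nhds hx
      rw [nhds_pi, Filter.mem_pi] at o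
      obtain ⟨F, f1, t, f2, f3⟩ := o
      refine ⟨f1.toFinset.filter (x · = true), fun _ => f3 fun c hc => ?_⟩
      convert mem_of_mem_nhds (f2 c)
      simp [hc]
    · exact ⟨∅, fun e => (h e).elim⟩
  choose T hT using this
  have := frequently_iff_neBot.1 (not_eventually.1 hc)
  refine hε.not_ge ((ge_of_tendsto (tendsto_map'_iff.1 (g.2 (⟨.of (atTop ⊓ 𝓟 {k | ¬ ∀ x,
    |g.1 (k, x)| ≤ ε}), (Ultrafilter.of_le _).trans inf_le_left⟩, T))).abs (mem_of_superset
      (Ultrafilter.of_le _ (mem_inf_of_right (mem_principal_self _))) fun k hk =>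
        (hT k (by simpa using hk)).le)).trans abs_zero.le)

lemma ccY (y : K) (u : ℕ → XX (nu y)) : ∃ x, MapClusterPt x atTop u := by
  rcases frequently_or_distrib.1 (Frequently.of_forall (f := atTop) fun j => cX _ (u j)) with h | h
  all_goals
    obtain ⟨φ, φ1, φ2⟩ := extraction_of_frequently_atTop h
    suffices ∃ x, MapClusterPt x atTop (u ∘ φ) from this.imp fun x => .of_comp φ1.tendsto_atTop
    choose d hd using φ2
    rw [show u ∘ φ = _ ∘ d from funext hd]
  · obtain ⟨x, hx⟩ := ccK d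
    exact ⟨_, hx.continuousAt_comp (i0 _).continuous.continuousAt⟩
  · suffices ∃ x, Tendsto (i1 (nu y) ∘ d) (hyperfilter ℕ) (𝓝 x) from this.imp fun x h =>
      h.mapClusterPt.mono Nat.hyperfilter_le_atTop
    rcases ((hyperfilter ℕ).map fun j => (d j).1).le_cofinite_or_eq_pure with h | ⟨a, h⟩
    · refine ⟨i0 _ y, tendsto_subtype_rng.2 (tendsto_const_nhds.prodMk_nhds (tendsto_pi_nhds.2
        fun g => Metric.tendsto_nhds.2 fun ε hε => ?_))⟩
      rw [Nat.cofinite_eq_atTop] at h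
      exact (Tendsto.eventually h (far g (half_pos hε))).mono fun j hj => by
        simpa [q] using (hj (d j).2).trans_lt (half_lt_self hε)
    · exact ⟨_, ((i1 _).continuous.tendsto (a, _)).comp (Tendsto.prodMk_nhds
        (le_trans (le_of_eq (congrArg Ultrafilter.toFilter h)) (pure_le_nhds a))
        ((hyperfilter ℕ).map fun j => (d j).2).le_nhds_lim)⟩

lemma ncc (x : XX mu) : ¬ MapClusterPt x atTop fun k => i1 mu (k, fun _ => true) := by
  classical
  intro hx
  have e : ∀ f : XX mu → ℝ, Continuous f →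
      Tendsto (fun k => f (i1 mu (k, fun _ => true))) atTop (𝓝 0) → f x = 0 := fun f hf h =>
    eq_of_nhds_neBot ((hx.continuousAt_comp hf.continuousAt).clusterPt.mono h)
  rcases cX _ x with ⟨y, rfl⟩ | ⟨z, rfl⟩
  · obtain ⟨c, hc⟩ := ex1 y
    let h : C(K, ℝ) := ⟨fun x => if x.1 c = true then 1 else 0, (continuous_of_discreteTopology
      (f := fun b : Bool => if b = true then (1 : ℝ) else 0)).comp
        ((continuous_apply c).comp continuous_subtype_val)⟩
    have := e (fun x => x.1.1 h) (by fun_prop) (squeeze_zero_norm (fun k => by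
      have := avb (k, fun _ => true) h (c.1.1 k) (a := 0) (M := 1) le_rfl
        (fun x => by simp only [h, ContinuousMap.coe_mk]; split_ifs <;> simp)
        fun i hi e => by simp [h, s, min_eq_left (show i ≤ k from hi), e]
      rwa [sub_zero, zero_add, one_mul] at this) c.1.2)
    simp [i0, h, hc] at this
  · have := e (fun x => x.1.2 ⟨⟨fun l => if l.1 = z.1 then 1 else 0,
      (continuous_of_discreteTopology (f := fun b : ℕ => if b = z.1 then (1 : ℝ) else 0)).comp
        continuous_fst⟩, fun i => tendsto_map'_iff.2 (tendsto_const_nhds.congr' (i.1.2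
          ((eventually_ne_atTop z.1).mono fun k hk => (if_neg hk).symm)))⟩) (by fun_prop)
      (tendsto_const_nhds.congr' ((eventually_ne_atTop z.1).mono fun k hk => (if_neg hk).symm))
    simp [i1, q] at this

end Pool.Agent.H.MP_d4b900
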